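import Pool.Agent.Helper68.QS.St1

/-! # Project QD: straightening and transfer, module EIX (subgroups of finite index) -/

open MeasureTheory Set Filter Topology Complex
open scoped ContDiff ComplexConjugate ENNReal

namespace Pool.Agent.Helper68.QSE

open Pool.Agent.Helper68.QS Pool.Agent.Helper68.QC
open Pool.Agent.Helper61.QE (D Dx rf SU Fu FD Ab sy nuT muT syX syY Kap En Et)

private theorem mob_one (z : ℂ) : mob 1 z = z := by
  simp [mob, den]

theorem pEIX (hEQV : Pool.Agent.Helper68.QC.StEQV) (hSUB : Pool.Agent.Helper61.QE.StSUB)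
    (hENM : Pool.Agent.Helper68.QS.StENM) : Pool.Agent.Helper68.QS.StEIX := by
  intro Γ _ s N F hFu hN hF
  classical
  obtain ⟨s1, s2, -, s4, s5, -⟩ := hSUB
  have hfin : Finite (Γ ⧸ N) := inferInstance
  have : Fintype (Γ ⧸ N) := Fintype.ofFinite _
  have den0 : ∀ γ, ∀ z ∈ D, den (s γ) z ≠ 0 := fun γ z hz =>
    s4 (s γ) (hFu.su γ) z (mem_ball_zero_iff.1 hz).le
  have mD : ∀ γ, ∀ z ∈ D, mob (s γ) z ∈ D := by
    intro γ z hz
    have h1 := s5 (s γ) (hFu.su γ) z (den0 γ z hz)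
    have h2 : ‖z‖ < 1 := mem_ball_zero_iff.1 hz
    have h3 : 0 < ‖den (s γ) z‖ ^ 2 := pow_pos (norm_pos_iff.2 (den0 γ z hz)) 2
    rw [mem_ball_zero_iff]
    by_contra hc
    push Not at hc
    have h4 : (1 - ‖mob (s γ) z‖ ^ 2) * ‖den (s γ) z‖ ^ 2 ≤ 0 := by
      apply mul_nonpos_of_nonpos_of_nonneg _ h3.le
      nlinarith
    have h5 : 0 < 1 - ‖z‖ ^ 2 := by nlinarith [norm_nonneg z]
    linarith
  have mm : ∀ γ δ, ∀ z ∈ D, mob (s (γ * δ)) z = mob (s γ) (mob (s δ) z) := by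
    intro γ δ z hz
    rw [map_mul]
    exact (s1 (s γ) (s δ) z (den0 δ z hz)).2
  have mi : ∀ γ, ∀ z ∈ D, mob (s γ⁻¹) (mob (s γ) z) = z := by
    intro γ z hz
    rw [← mm _ _ z hz, inv_mul_cancel, map_one, mob_one]
  have mi' : ∀ γ, ∀ z ∈ D, mob (s γ) (mob (s γ⁻¹) z) = z := by
    intro γ z hz
    rw [← mm _ _ z hz, mul_inv_cancel, map_one, mob_one]
  have FD' : F ⊆ D := by
    intro z hz
    obtain ⟨r, hr, hG'⟩ := hF.cpt
    exact mem_ball_zero_iff.2 (lt_of_le_of_lt (hG' z hz) hr)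
  obtain ⟨σ, hσ, hσ1⟩ : ∃ σ : Γ ⧸ N → Γ, (∀ q, ((σ q : Γ) : Γ ⧸ N) = q) ∧
      σ ((1 : Γ) : Γ ⧸ N) = 1 := by
    refine ⟨fun q => if q = ((1 : Γ) : Γ ⧸ N) then 1 else Quotient.out q, ?_, ?_⟩
    · intro q
      by_cases h : q = ((1 : Γ) : Γ ⧸ N)
      · simp only [h, if_true]
      · simp only [h, if_false]
        exact QuotientGroup.out_eq' _
    · simp
  obtain ⟨c, hc⟩ : ∃ c : Γ ⧸ N → Γ, ∀ q, c q = (σ q)⁻¹ := ⟨_, fun _ => rfl⟩
  have c1 : c ((1 : Γ) : Γ ⧸ N) = 1 := by rw [hc, hσ1, inv_one]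
  have cN : ∀ γ : Γ, c (γ : Γ ⧸ N) * γ ∈ N := by
    intro γ
    rw [hc, ← QuotientGroup.eq]
    exact hσ _
  -- uniqueness of the decomposition
  have uq : ∀ (q q' : Γ ⧸ N) (n : Γ), n ∈ N → n * c q = c q' → q = q' ∧ n = 1 := by
    intro q q' n hn h
    have h1 : q = q' := by
      have e1 : ((σ q' : Γ) : Γ ⧸ N) = ((σ q : Γ) : Γ ⧸ N) := by
        rw [QuotientGroup.eq]
        rw [hc, hc] at h
        have : (σ q' : Γ)⁻¹ * σ q = n := by
          rw [← h]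
          group
        rw [this]
        exact hn
      rw [hσ, hσ] at e1
      exact e1.symm
    refine ⟨h1, ?_⟩
    rw [h1] at h
    exact mul_eq_right.1 h
  -- compactness
  have cp : ∀ r < 1, ∃ r' < 1, ∀ q, ∀ z, ‖z‖ ≤ r → ‖mob (s (c q)) z‖ ≤ r' := by
    intro r hr
    have hsub : Metric.closedBall (0 : ℂ) r ⊆ D := Metric.closedBall_subset_ball hr
    have hK : IsCompact (⋃ q, mob (s (c q)) '' Metric.closedBall 0 r) := by
      apply isCompact_iUnion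
      intro q
      apply (isCompact_closedBall (0 : ℂ) r).image_of_continuousOn
      intro z hz
      exact ((s2 (s (c q)) z (den0 _ z (hsub hz))).continuousAt).continuousWithinAt
    have hKD : (⋃ q, mob (s (c q)) '' Metric.closedBall 0 r) ⊆ Metric.ball (0 : ℂ) 1 := by
      apply iUnion_subset
      rintro q _ ⟨z, hz, rfl⟩
      exact mD _ z (hsub hz)
    obtain ⟨r', hr', h⟩ := exists_lt_subset_ball hK.isClosed hKD
    refine ⟨r', hr', fun q z hz => ?_⟩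
    have := h (mem_iUnion.2 ⟨q, mem_image_of_mem _ (mem_closedBall_zero_iff.2 hz)⟩)
    exact (mem_ball_zero_iff.1 this).le
  have im : ∀ q, mob (s (c q)) '' F = D ∩ mob (s (c q)⁻¹) ⁻¹' F := by
    intro q
    ext z
    constructor
    · rintro ⟨y, hy, rfl⟩
      refine ⟨mD _ y (FD' hy), ?_⟩
      show mob (s (c q)⁻¹) (mob (s (c q)) y) ∈ F
      rw [mi _ y (FD' hy)]
      exact hy
    · rintro ⟨hz, h⟩
      exact ⟨_, h, mi' _ z hz⟩
  have mmeas : ∀ A : SL, Measurable (mob A) := by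
    intro A
    unfold mob den
    fun_prop
  have im_meas : ∀ q, MeasurableSet (mob (s (c q)) '' F) := by
    intro q
    rw [im]
    exact measurableSet_ball.inter (mmeas _ hF.meas)
  have coll : ∀ (q q' : Γ ⧸ N) (n : Γ), n ∈ N → ∀ y ∈ F, ∀ y' ∈ F,
      mob (s n) (mob (s (c q)) y) = mob (s (c q')) y' → q = q' ∧ n = 1 := by
    intro q q' n hn y hy y' hy' h
    have h1 : mob (s ((c q')⁻¹ * (n * c q))) y = y' := by
      rw [mm _ _ y (FD' hy), mm _ _ y (FD' hy), h, mi _ y' (FD' hy')]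
    have h2 := hF.uni y hy ((c q')⁻¹ * (n * c q)) (by rw [h1]; exact hy')
    exact uq q q' n hn (inv_mul_eq_one.1 h2).symm
  refine ⟨?_, ⋃ q, mob (s (c q)) '' F, ?_, ?_, ?_⟩
  · refine ⟨fun n => hFu.su n, ?_, ?_, ?_⟩
    · intro r hr
      exact (hFu.disc r hr).preimage (Subtype.val_injective.injOn)
    · intro n hn z hz
      exact hFu.free n (fun h => hn (Subtype.ext h)) z hz
    · obtain ⟨r, hr, h⟩ := hFu.coc
      obtain ⟨r', hr', h'⟩ := cp r hr
      refine ⟨r', hr', fun z hz => ?_⟩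
      obtain ⟨γ, hγ⟩ := h z hz
      refine ⟨⟨c (γ : Γ ⧸ N) * γ, cN γ⟩, ?_⟩
      show ‖mob (s (c (γ : Γ ⧸ N) * γ)) z‖ ≤ r'
      rw [mm _ _ z hz]
      exact h' _ _ hγ
  · intro z hz
    refine mem_iUnion.2 ⟨((1 : Γ) : Γ ⧸ N), z, hz, ?_⟩
    rw [c1, map_one, mob_one]
  · refine ⟨MeasurableSet.iUnion im_meas, ?_, ?_, ?_⟩
    · obtain ⟨r, hr, h⟩ := hF.cpt
      obtain ⟨r', hr', h'⟩ := cp r hr
      refine ⟨r', hr', ?_⟩
      intro z hz
      obtain ⟨q, y, hy, rfl⟩ := mem_iUnion.1 hz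
      exact h' q y (h y hy)
    · intro z hz
      obtain ⟨γ, hγ⟩ := hF.cov z hz
      refine ⟨⟨c (γ : Γ ⧸ N) * γ, cN γ⟩, mem_iUnion.2 ⟨(γ : Γ ⧸ N), mob (s γ) z, hγ, ?_⟩⟩
      show mob (s (c (γ : Γ ⧸ N))) (mob (s γ) z) = mob (s (c (γ : Γ ⧸ N) * γ)) z
      rw [mm _ _ z hz]
    · intro z hz n hn
      obtain ⟨q, y, hy, rfl⟩ := mem_iUnion.1 hz
      obtain ⟨q', y', hy', e⟩ := mem_iUnion.1 hn
      exact Subtype.ext (coll q q' n n.2 y hy y' hy' e.symm).2
  · intro k μ hk hμ hinv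
    have hdis : Pairwise (Function.onFun Disjoint
        (fun q => nq μ '' (mob (s (c q)) '' F))) := by
      intro q q' hqq
      show Disjoint (nq μ '' (mob (s (c q)) '' F)) (nq μ '' (mob (s (c q')) '' F))
      apply disjoint_image_of_injective (nq μ).injective
      rw [Set.disjoint_left]
      rintro _ ⟨y, hy, rfl⟩ ⟨y', hy', e⟩
      apply hqq
      refine (coll q q' 1 N.one_mem y hy y' hy' ?_).1
      rw [map_one, mob_one]
      exact e.symm
    have hms : ∀ q, MeasurableSet (nq μ '' (mob (s (c q)) '' F)) := fun q =>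
      ((nq μ).measurableEmbedding.measurableSet_image).2 (im_meas q)
    unfold En
    rw [image_iUnion, lintegral_iUnion hms hdis, tsum_fintype]
    have each : ∀ q, ∫⁻ a in nq μ '' (mob (s (c q)) '' F), ∫⁻ ξ in nq μ '' Dx,
        ENNReal.ofReal (‖ξ - a‖⁻¹ ^ 4) =
        ∫⁻ a in nq μ '' F, ∫⁻ ξ in nq μ '' Dx, ENNReal.ofReal (‖ξ - a‖⁻¹ ^ 4) := by
      intro q
      obtain ⟨B, hB⟩ := hEQV k hk μ hμ (s (c q)) (hinv _)
      exact hENM (s (c q)) B (nq μ) (nq μ) F (hFu.su _) hB hF.meas FD'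
    rw [Finset.sum_congr rfl (fun q _ => each q), Finset.sum_const, Finset.card_univ,
      nsmul_eq_mul, Subgroup.index, Nat.card_eq_fintype_card]

end Pool.Agent.Helper68.QSE
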