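import Pool.Agent.Helper68.QS.St2

/-!
# Project QD: the base surface with strictness on the orbit of `SL(2,ℤ)` (assembly)
-/

open MeasureTheory Set Filter Topology Complex
open scoped ContDiff ComplexConjugate ENNReal

namespace Pool.Agent.Helper68.QS

open Pool.Agent.Helper68.QC
open Pool.Agent.Helper61.QE (D Dx rf SU Fu FD Ab sy nuT muT syX syY Kap En Et)
open Pool.Agent.Helper35.PM (SurfaceGroup)
open Pool.Agent.Helper69.QC (Orb mb)
open Pool.Agent.Helper69.QG (slin)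

/-- The linear map of an integer matrix in complex notation. -/
lemma slin_eq (P Q R S : ℤ) (hd : (!![P, -Q; -R, S] : Matrix _ _ ℤ).det = 1)
    (u : ℂ) :
    slin ⟨!![P, -Q; -R, S], hd⟩ u =
      ((((P + S : ℤ) : ℂ) - ((R - Q : ℤ) : ℂ) * I) / 2) * u +
        ((((P - S : ℤ) : ℂ) - ((R + Q : ℤ) : ℂ) * I) / 2) * conj u := by
  apply Complex.ext
  · simp [slin]
    ring
  · simp [slin]
    ring

lemma normSq_ab (P Q R S : ℤ) (hdet : P * S - Q * R = 1) :
    ‖(((P - S : ℤ) : ℂ) - ((R + Q : ℤ) : ℂ) * I) / 2‖ <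
      ‖(((P + S : ℤ) : ℂ) - ((R - Q : ℤ) : ℂ) * I) / 2‖ := by
  have hd : (P : ℝ) * S - Q * R = 1 := by exact_mod_cast hdet
  have h1 : ‖(((P - S : ℤ) : ℂ) - ((R + Q : ℤ) : ℂ) * I) / 2‖ ^ 2 =
      ((P - S : ℝ) ^ 2 + (R + Q : ℝ) ^ 2) / 4 := by
    rw [← Complex.normSq_eq_norm_sq, Complex.normSq_apply]
    simp
    ring
  have h2 : ‖(((P + S : ℤ) : ℂ) - ((R - Q : ℤ) : ℂ) * I) / 2‖ ^ 2 =
      ((P + S : ℝ) ^ 2 + (R - Q : ℝ) ^ 2) / 4 := by
    rw [← Complex.normSq_eq_norm_sq, Complex.normSq_apply]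
    simp
    ring
  apply lt_of_pow_lt_pow_left₀ 2 (norm_nonneg _)
  rw [h1, h2]
  nlinarith

/-- Rotation invariance of circle averages. -/
lemma circleAverage_rot (f : ℂ → ℝ) (r : ℝ) (u : ℂ) (hu : ‖u‖ = 1) :
    Real.circleAverage (fun ζ => f (ζ * u)) 0 r = Real.circleAverage f 0 r := by
  obtain ⟨η, hη⟩ : ∃ η : ℝ, u = Complex.exp (η * I) := by
    refine ⟨Complex.arg u, ?_⟩
    have := Complex.norm_mul_exp_arg_mul_I u
    rw [hu] at this
    simpa using this.symm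
  rw [Real.circleAverage_eq_integral_add (f := f) η, Real.circleAverage_def]
  congr 1
  apply intervalIntegral.integral_congr
  intro θ _
  simp only
  congr 1
  rw [hη, circleMap, circleMap, zero_add, zero_add, mul_assoc, ← Complex.exp_add]
  push_cast
  ring_nf

theorem pGPT (gpa : Pool.Agent.Helper69.QG.St_GPA) (hFUF : StFUF) (hSGH : StSGH) (hSFU : StSFU)
    (hFDX : Pool.Agent.Helper61.QE.StFDX) (hEIX : StEIX) (hTRF : StTRF) (hEFD : EFD) (hSTR : STR)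
    (hSUB : Pool.Agent.Helper61.QE.StSUB) : StGPT := by
  intro g hg
  obtain ⟨s0, Psi, mu0, N, hF, hfree, hcont, hB, hS, hE, hNC, hfin, hnorm, hγ⟩ := gpa g hg
  have hfu0 : Fu s0 := hFUF _ s0 hF hfree
  have h2a : (1 : ℝ) ≤ Real.sqrt 2 := by
    rw [show (1 : ℝ) = Real.sqrt 1 by simp]
    exact Real.sqrt_le_sqrt (by norm_num)
  have h2b : Real.sqrt 2 < 2 := by
    rw [show (2 : ℝ) = Real.sqrt 4 by rw [show (4 : ℝ) = 2 ^ 2 by norm_num, Real.sqrt_sq (by norm_num)]]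
    exact Real.sqrt_lt_sqrt (by norm_num) (by norm_num)
  obtain ⟨f, s, hfD, hfDx, hf0, hfrf, hsu, hint, hab⟩ :=
    hSGH _ s0 (Real.sqrt 2 - 1) mu0 Psi (by linarith) (by linarith) hfu0.su hB hS hNC hE
  have hfu : Fu s := hSFU _ s0 s f hfD hf0 hfu0 hsu hint
  obtain ⟨F0, hF0⟩ := hFDX _ s hfu
  obtain ⟨hfuN, F1, hsub, hF1, hen⟩ := hEIX _ s N F0 hfu hfin hF0
  set h : ℂ → ℂ := fun z => Psi (f.symm z) with hh
  have hfm : ∀ z ∈ D, f z ∈ D := fun z hz => hfD ▸ mem_image_of_mem f hz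
  have hfm' : ∀ z ∈ D, f.symm z ∈ D := fun z hz => by
    rw [← hfD] at hz
    obtain ⟨y, hy, rfl⟩ := hz
    simpa using hy
  have habN : Ab (s.comp N.subtype) h := ⟨hab.hol, fun γ => hab.eqv (γ : SurfaceGroup g), hab.ne⟩
  refine ⟨s, N, F0, F1, h, hfu, hF0, hsub, hfin, hfuN, hF1, hab, ?_⟩
  intro r hr hr1
  obtain ⟨c, hc, hstr⟩ := hSTR _ (s.comp N.subtype) F1 h hfuN hF1 habN r hr hr1
  refine ⟨c, hc, fun k hk κ hκ p hp hpD => ?_⟩
  have hk0 : 0 ≤ k := (norm_nonneg _).trans (hκ.bel.le 0)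
  obtain ⟨P, Q, R, S, hdet, hpeq⟩ := hp
  have hd : (!![P, -Q; -R, S] : Matrix _ _ ℤ).det = 1 := by
    rw [Matrix.det_fin_two_of]
    linarith
  obtain ⟨H, H', v, φ, hHm, hHm', hHc, hHc', hHl, hHr, hHe, hHn⟩ :=
    hγ ⟨!![P, -Q; -R, S], hd⟩
  obtain ⟨a, ha⟩ : ∃ a : ℂ, a = (((P + S : ℤ) : ℂ) - ((R - Q : ℤ) : ℂ) * I) / 2 := ⟨_, rfl⟩
  obtain ⟨b, hb⟩ : ∃ b : ℂ, b = (((P - S : ℤ) : ℂ) - ((R + Q : ℤ) : ℂ) * I) / 2 := ⟨_, rfl⟩
  have hlt : ‖b‖ < ‖a‖ := by rw [ha, hb]; exact normSq_ab P Q R S hdet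
  have ha0 : a ≠ 0 := norm_pos_iff.1 ((norm_nonneg _).trans_lt hlt)
  have hslin : ∀ u : ℂ, slin ⟨!![P, -Q; -R, S], hd⟩ u = a * u + b * conj u := fun u => by
    rw [ha, hb]
    exact slin_eq P Q R S hd u
  have hba : conj (b / a) = p := by
    have h1 : p * conj a = conj b := by
      rw [ha, hb]
      have e1 : conj ((((P + S : ℤ) : ℂ) - ((R - Q : ℤ) : ℂ) * I) / 2) =
          (((P + S : ℤ) : ℂ) + ((R - Q : ℤ) : ℂ) * I) / 2 := by
        rw [map_div₀, map_sub, map_mul, Complex.conj_I, map_ofNat, map_intCast, map_intCast]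
        ring
      have e2 : conj ((((P - S : ℤ) : ℂ) - ((R + Q : ℤ) : ℂ) * I) / 2) =
          (((P - S : ℤ) : ℂ) + ((R + Q : ℤ) : ℂ) * I) / 2 := by
        rw [map_div₀, map_sub, map_mul, Complex.conj_I, map_ofNat, map_intCast, map_intCast]
        ring
      rw [e1, e2, ← hpeq]
      ring
    rw [map_div₀, ← h1, mul_div_assoc, div_self, mul_one]
    simpa using ha0
  have hAff : AffH h (fun z => f (H (f.symm z))) (fun z => f (H' (f.symm z))) a b v := by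
    refine ⟨fun z hz => hfm _ (hHm (hfm' z hz)), fun z hz => hfm _ (hHm' (hfm' z hz)),
      f.continuous.comp_continuousOn (hHc.comp f.symm.continuous.continuousOn hfm'),
      f.continuous.comp_continuousOn (hHc'.comp f.symm.continuous.continuousOn hfm'), ?_, ?_, ?_,
      hlt⟩
    · intro z hz
      simp only [Homeomorph.symm_apply_apply]
      rw [hHl _ (hfm' z hz), Homeomorph.apply_symm_apply]
    · intro z hz
      simp only [Homeomorph.symm_apply_apply]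
      rw [hHr _ (hfm' z hz), Homeomorph.apply_symm_apply]
    · intro z hz
      simp only [hh, Homeomorph.symm_apply_apply]
      rw [hHe _ (hfm' z hz), hslin]
  have hden : ∀ x, ∀ z ∈ D, den (s0 x) z ≠ 0 := fun x z hz =>
    hSUB.2.2.2.1 _ (hfu0.su x) z (by
      have : ‖z‖ < 1 := by simpa [D] using hz
      exact this.le)
  have hden' : ∀ x, ∀ z ∈ D, den (s x) z ≠ 0 := fun x z hz =>
    hSUB.2.2.2.1 _ (hsu x) z (by
      have : ‖z‖ < 1 := by simpa [D] using hz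
      exact this.le)
  have hfe : ∀ x, ∀ z ∈ D, f (mob (s0 x) z) = mob (s x) (f z) := fun x z hz =>
    (hint x).2.1 z (hden x z hz)
  have hcomm : ∀ n : N, ∀ z ∈ D, f (H (f.symm (mob ((s.comp N.subtype) n) z))) =
      mob ((s.comp N.subtype) (φ n)) (f (H (f.symm z))) := by
    intro n z hz
    have e1 : f.symm (mob (s (n : SurfaceGroup g)) z) = mob (s0 (n : SurfaceGroup g)) (f.symm z) := by
      rw [Homeomorph.symm_apply_eq, hfe _ _ (hfm' z hz), Homeomorph.apply_symm_apply]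
    have e2 : H (mob (s0 (n : SurfaceGroup g)) (f.symm z)) =
        mob (s0 ((φ n : N) : SurfaceGroup g)) (H (f.symm z)) := hHn n _ (hfm' z hz)
    show f (H (f.symm (mob (s (n : SurfaceGroup g)) z))) =
      mob (s ((φ n : N) : SurfaceGroup g)) (f (H (f.symm z)))
    rw [e1, e2, hfe _ _ (hHm (hfm' z hz))]
  obtain ⟨δ, hδ, κ'', hδ0, hκ'', heq⟩ := hTRF hEFD _ (s.comp N.subtype) φ h _ _ κ a b v F1 k hfuN
    hF1 habN hAff hcomm hk0 hk hκ
  rw [hba] at heq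
  have hmb : ∀ q ζ, mb q ζ = mbp q ζ := fun _ _ => rfl
  have e0 : Et F1 κ h p = Et F1 κ'' h 0 := by
    have := heq 0 (by simp [D])
    simp only [Et]
    rw [show mbp p 0 = p by simp [mbp]] at this
    rw [this, zero_mul]
  have e1 : Real.circleAverage (fun ζ => Et F1 κ h (mb p ζ)) 0 r =
      Real.circleAverage (Et F1 κ'' h) 0 r := by
    rw [← circleAverage_rot (Et F1 κ'' h) r (conj a / a) (by
      rw [norm_div, RCLike.norm_conj, div_self (norm_ne_zero_iff.2 ha0)])]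
    apply Real.circleAverage_congr_sphere
    intro ζ hζ
    have hζD : ζ ∈ D := by
      rw [mem_sphere_zero_iff_norm, abs_of_pos hr] at hζ
      simp [D, hζ, hr1]
    simp only [Et, hmb]
    rw [heq ζ hζD]
  rw [e0, e1]
  exact hstr δ hδ κ'' hκ''

end Pool.Agent.Helper68.QS
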