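import Pool.Agent.Helper68.QCA.Main
import Pool.Agent.Helper61.QE.AsmE
import Pool.Agent.Helper69.QG.All
import Pool.Agent.Helper22.QS.M_CGR
import Pool.Agent.Helper40.QS.M_GEV
import Pool.Agent.Helper62.QS.M_EQI
import Pool.Agent.Helper62.QS.M_LFH
import Pool.Agent.Helper9.QS.M_AUD
import Pool.Agent.Helper98.QS.M_HVM
import Pool.Agent.Helper29.QS.M_RFI
import Pool.Agent.Helper64.QS.M_CPA
import Pool.Agent.Helper48.QS.M_CPB
import Pool.Agent.Helper74.QS.M_CPO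
import Pool.Agent.Helper81.QS.M_INK
import Pool.Agent.Helper54.QS.M_MPB
import Pool.Agent.Helper54.QS.M_ENM
import Pool.Agent.Helper82.QS.M_FDH
import Pool.Agent.Helper28.QS.M_TRF
import Pool.Agent.Helper68.QS.M_EIX
import Pool.Agent.Helper42.QS.M_INP
import Pool.Agent.Helper11.QS.M_SGH
import Pool.Agent.Helper24.QS.M_SFU
import Pool.Agent.Helper94.QS.M_FUF
import Pool.Agent.Helper60.QS.M_DNE
import Pool.Agent.Helper36.QS.M_CMX
import Pool.Agent.Helper44.QS.M_BCA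
import Pool.Agent.Helper93.QS.M_BCB
import Pool.Agent.Helper6.QS.M_BCC
import Pool.Agent.Helper68.QS.M_GPT

/-!
# Project QD: straightening, transfer and base change: every theorem `q_X : StX` without hypotheses,
and `gpt_ : StGPT`
-/

namespace Pool.Agent.Helper68.QS

theorem q_CGR : StCGR := Pool.Agent.Helper22.QS.pCGR Pool.Agent.Helper68.QCA.EX Pool.Agent.Helper68.QCA.UNI
theorem q_GEV : StGEV := Pool.Agent.Helper40.QS.pGEV Pool.Agent.Helper68.QCA.EX Pool.Agent.Helper68.QCA.FAC Pool.Agent.Helper68.QCA.PRE Pool.Agent.Helper68.QCA.AFF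
theorem q_EQI : StEQI := Pool.Agent.Helper62.QS.pEQI Pool.Agent.Helper68.QCA.CVM Pool.Agent.Helper68.QCA.PRW Pool.Agent.Helper68.QCA.CHR Pool.Agent.Helper68.QCA.UNW Pool.Agent.Helper61.QE.e_SUB
theorem q_LFH : StLFH := Pool.Agent.Helper62.QS.pLFH 
theorem q_AUD : StAUD := Pool.Agent.Helper9.QS.pAUD 
theorem q_HVM : StHVM := Pool.Agent.Helper98.QS.pHVM Pool.Agent.Helper68.QCA.EX Pool.Agent.Helper68.QCA.FAC Pool.Agent.Helper61.QE.e_SUB Pool.Agent.Helper61.QE.e_EDD Pool.Agent.Helper61.QE.e_COE q_LFH q_AUD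
theorem q_RFI : StRFI := Pool.Agent.Helper29.QS.pRFI Pool.Agent.Helper61.QE.e_SUB
theorem q_CPA : StCPA := Pool.Agent.Helper64.QS.pCPA Pool.Agent.Helper68.QCA.EX Pool.Agent.Helper68.QCA.FAC Pool.Agent.Helper68.QCA.CMP Pool.Agent.Helper68.QCA.CVM Pool.Agent.Helper68.QCA.CHR Pool.Agent.Helper68.QCA.UNW Pool.Agent.Helper61.QE.e_SUB Pool.Agent.Helper61.QE.e_EDD Pool.Agent.Helper61.QE.e_COE
theorem q_CPB : StCPB := Pool.Agent.Helper48.QS.pCPB Pool.Agent.Helper68.QCA.EX Pool.Agent.Helper68.QCA.FAC Pool.Agent.Helper68.QCA.POS Pool.Agent.Helper68.QCA.CVM Pool.Agent.Helper68.QCA.UNW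
theorem q_CPO : StCPO := Pool.Agent.Helper74.QS.pCPO Pool.Agent.Helper61.QE.e_EDD Pool.Agent.Helper61.QE.e_COE q_CGR q_CPA q_CPB
theorem q_INK : StINK := Pool.Agent.Helper81.QS.pINK Pool.Agent.Helper68.QCA.EQV Pool.Agent.Helper61.QE.e_SUB Pool.Agent.Helper61.QE.e_INT Pool.Agent.Helper61.QE.e_EDD Pool.Agent.Helper61.QE.e_COE q_RFI q_EQI
theorem q_MPB : StMPB := Pool.Agent.Helper54.QS.pMPB Pool.Agent.Helper61.QE.e_SUB q_GEV
theorem q_ENM : StENM := Pool.Agent.Helper54.QS.pENM Pool.Agent.Helper61.QE.e_SUB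
theorem q_FDH : StFDH := Pool.Agent.Helper82.QS.pFDH Pool.Agent.Helper61.QE.e_SUB
theorem q_TRF : StTRF := Pool.Agent.Helper28.QS.pTRF Pool.Agent.Helper61.QE.e_SUB Pool.Agent.Helper61.QE.e_EDD Pool.Agent.Helper61.QE.e_COE q_HVM q_CPO q_INK q_MPB q_ENM q_FDH
theorem q_EIX : StEIX := Pool.Agent.Helper68.QSE.pEIX Pool.Agent.Helper68.QCA.EQV Pool.Agent.Helper61.QE.e_SUB q_ENM
theorem q_INP : StINP := Pool.Agent.Helper42.QS.pINP Pool.Agent.Helper68.QCA.EX Pool.Agent.Helper68.QCA.FAC Pool.Agent.Helper68.QCA.CVM Pool.Agent.Helper68.QCA.CHR Pool.Agent.Helper68.QCA.UNW Pool.Agent.Helper68.QCA.PRW Pool.Agent.Helper61.QE.e_SUB Pool.Agent.Helper61.QE.e_EDD Pool.Agent.Helper61.QE.e_COE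
theorem q_SGH : StSGH := Pool.Agent.Helper11.QS.pSGH Pool.Agent.Helper68.QCA.EX Pool.Agent.Helper68.QCA.FAC Pool.Agent.Helper68.QCA.REP Pool.Agent.Helper61.QE.e_SUB Pool.Agent.Helper61.QE.e_EDD Pool.Agent.Helper61.QE.e_COE q_CGR q_INP
theorem q_SFU : StSFU := Pool.Agent.Helper24.QS.pSFU Pool.Agent.Helper61.QE.e_SUB
theorem q_FUF : StFUF := Pool.Agent.Helper94.QS.pFUF 
theorem q_DNE : StDNE := Pool.Agent.Helper60.QS.pDNE Pool.Agent.Helper68.QCA.CVM Pool.Agent.Helper68.QCA.UNW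
theorem q_CMX : StCMX := Pool.Agent.Helper36.QS.pCMX Pool.Agent.Helper68.QCA.NQD Pool.Agent.Helper68.QCA.CVM Pool.Agent.Helper68.QCA.NUL Pool.Agent.Helper68.QCA.PSH Pool.Agent.Helper68.QCA.UNI Pool.Agent.Helper68.QCA.UNW
theorem q_BCA : StBCA := Pool.Agent.Helper44.QS.pBCA q_CMX Pool.Agent.Helper68.QCA.NUL q_CGR
theorem q_BCB : StBCB := Pool.Agent.Helper93.QS.pBCB Pool.Agent.Helper68.QCA.EQV Pool.Agent.Helper61.QE.e_INT q_EQI q_BCA
theorem q_BCC : StBCC := Pool.Agent.Helper6.QS.pBCC Pool.Agent.Helper68.QCA.EX Pool.Agent.Helper68.QCA.FAC Pool.Agent.Helper68.QCA.CHR Pool.Agent.Helper68.QCA.UNW Pool.Agent.Helper68.QCA.NUL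
theorem q_EFD : EFD := fun Γ _ s F F' k μ h1 h2 h3 h4 h5 h6 =>
  Pool.Agent.Helper61.QE.e_EFD Γ s F F' μ k h1 h2 h3 h4 h5 h6
theorem q_STR : STR := Pool.Agent.Helper61.QE.e_STR
theorem gpt_ : StGPT := pGPT Pool.Agent.Helper69.QG.gpa_ q_FUF q_SGH q_SFU
  Pool.Agent.Helper61.QE.e_FDX q_EIX q_TRF q_EFD q_STR Pool.Agent.Helper61.QE.e_SUB

end Pool.Agent.Helper68.QS
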