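import Pool.Agent.Helper68.QS.St1

/-!
# Project QD: exact composition formula and base change of Teichmüller discs
-/

open MeasureTheory Set Filter Topology Complex
open scoped ContDiff ComplexConjugate ENNReal

namespace Pool.Agent.Helper68.QS

open Pool.Agent.Helper68.QC

/-- `a` is the derivative `∂ nq κ` (a representative without zeros). -/
structure DNq (κ a : ℂ → ℂ) : Prop where
  wd : WD univ (nq κ) a (fun z => κ z * a z)
  meas : Measurable a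
  ne : ∀ z, a z ≠ 0

/-- DNE (about 30 lines).  Existence of the derivative: hCVM (`b z = κ z * a z` for all `z`, so `b = fun z => κ z * a z`), and uniqueness a.e. by hUNW.  Hypotheses: hCVM, hUNW. -/
def StDNE : Prop := ∀ k < 1, ∀ κ, Bel k κ → (∃ a, DNq κ a) ∧
  ∀ a a', DNq κ a → DNq κ a' → ∀ᵐ z : ℂ, a z = a' z

/-- CMX (about 200 lines).  Exact composition formula.  Proof: copy the proof of StCMP (`pIF9`, Pool/Agent/Helper66/QCM/M_IF9.lean) and keep the phase: `w = nq κ` with derivatives `a, b = κ a`, `f = nq μ` with derivatives `c, d = μ c` (hCVM).  hPSH: `f ∘ w⁻¹` has weak derivatives `C, D` with `C(w z) J = c conj a - d conj b = c conj a (1 - conj κ μ)`, `D(w z) J = a d - b c = a c (μ - κ)`, `J = ‖a‖² - ‖b‖² > 0` a.e.; so (a.e. `z`, `c ≠ 0`) `D(w z) conj a (1 - conj κ μ) = C(w z) a (μ - κ)`.  `ν = D/C` where `‖D‖ ≤ δ‖C‖`, `C ≠ 0`, else `0`, with `δ = 2k'/(1+k'²)` (`k' = max k 0`), since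 `‖μ - κ‖ ≤ δ‖1 - conj κ μ‖`; `ν` is measurable, `D = ν C` a.e. (null sets are preserved by `w`, hNUL), hUNI: `nq ν = nq μ ∘ (nq κ)⁻¹`.  Hypotheses: hNQD, hCVM, hNUL, hPSH, hUNI, hUNW. -/
def StCMX : Prop := ∀ k < 1, ∀ μ κ, Bel k μ → Bel k κ → ∀ a, DNq κ a → ∃ δ < 1, ∃ ν, Bel δ ν ∧
  (∀ z, nq μ z = nq ν (nq κ z)) ∧
  ∀ᵐ z : ℂ, ν (nq κ z) * (conj (a z) * (1 - conj (κ z) * μ z)) = a z * (μ z - κ z)

/-- the coefficient `κ + t n` -/
noncomputable def muD (κ n : ℂ → ℂ) (t z : ℂ) : ℂ := κ z + t * n z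

/-- `n` has modulus `0` or `1`, and `κ = 0` where it is not `0` -/
structure Dis (k : ℝ) (κ n : ℂ → ℂ) : Prop where
  lt : k < 1
  belk : Bel k κ
  beln : Bel 1 n
  dis : ∀ z, n z = 0 ∨ (‖n z‖ = 1 ∧ κ z = 0)

/-- the direction `n` seen from the point `t` of the disc -/
noncomputable def mD (κ n a : ℂ → ℂ) (t ζ : ℂ) : ℂ :=
  n ((nq (muD κ n t)).symm ζ) * (a ((nq (muD κ n t)).symm ζ) / conj (a ((nq (muD κ n t)).symm ζ)))

/-- BCA (about 150 lines).  Base change of a disc.  Proof: `m = mD κ n a t` is measurable (`a`, `n` measurable, `(nq _).symm` continuous), `‖m‖ ≤ 1`; `m (nq μ_t z) = n z * (a z / conj (a z))` for all `z`.  `Bel (max k ‖t‖) (muD κ n t)` by `Dis`.  Given `s`, `t' = (s + t)/(1 + conj t s)`, `‖t'‖ < 1`: hCMX for `μ = μ_t'`, `κ = μ_t` gives `ν`, a.e. `z`: if `n z = 0` then both coefficients are `κ z` and `ν (nq μ_t z) = 0`; if `‖n z‖ = 1`, `κ z = 0`: `1 - conj (μ_t) μ_t' = 1 -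 conj t t'`, `μ_t' - μ_t = (t' - t) n z` and `(t' - t)/(1 - conj t t') = s`: `ν (nq μ_t z) = s m (nq μ_t z)`.  So `ν = s m` a.e. (hNUL) and hCGR: `nq ν = nq (s m)` (`Bel ‖s‖ (s m)`).  Hypotheses: hCMX, hNUL, hCGR. -/
def StBCA : Prop := ∀ (k : ℝ) (κ n a : ℂ → ℂ) (t : ℂ), Dis k κ n → ‖t‖ < 1 → DNq (muD κ n t) a →
  Bel 1 (mD κ n a t) ∧
  (∀ z, mD κ n a t (nq (muD κ n t) z) = n z * (a z / conj (a z))) ∧
  ∀ s : ℂ, ‖s‖ < 1 → ‖(s + t) / (1 + conj t * s)‖ < 1 ∧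
    ∀ z, nq (muD κ n ((s + t) / (1 + conj t * s))) z =
      nq (fun y => s * mD κ n a t y) (nq (muD κ n t) z)

/-- BCB (about 100 lines).  Invariance after base change.  Proof: `t' = (1/2 + t)/(1 + conj t/2)`; `nq μ_t'` intertwines `A` with some `R` (`InvB A (muD κ n t')`, hEQV) and `nq μ_t' = nq (m/2) ∘ nq μ_t` (hBCA), so `nq (m/2)` intertwines `B` with `R` (QE.hINT, third item), and hEQI: `InvB B (m/2)`, so `InvB B m`.  Hypotheses: hEQV, QE.hINT, hEQI, hBCA. -/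
def StBCB : Prop := ∀ (k : ℝ) (κ n a : ℂ → ℂ) (t : ℂ) (A B : SL), Dis k κ n → ‖t‖ < 1 →
  DNq (muD κ n t) a → InvB A κ → InvB A n → Intw A B (nq (muD κ n t)) → InvB B (mD κ n a t)

/-- BCC (about 150 lines).  Natural coordinates after base change.  Proof: `w = nq (muD κ n t)`; on `U` `muD = t n`, `n = conj q'/q'`, so `f = q + t conj q` (derivatives `q'`, `t conj q' = t n q'`) is `Sol (muD κ n t)` on `U`: `Q` is holomorphic on `w '' U` (hFAC) (`w '' U` is open).  `f = Q ∘ w` on `U`: hCHR gives the weak derivative `Q'(w) a`, and classically it is `q'`; hUNW: `Q'(w z) a z = q' z` a.e. on `U`.  So `Q'(w z) ≠ 0`, and `m (w z) = n z a z/conj (a z) = (conj q'/q')(q'/Q'(w))(conj Q'(w)/conj q') = conj Q'(w)/Q'(w)` a.e. on `U`; transport to `w '' U` by hNUL.  Hypotheses: hEX, hFAC, hCHR, hUNW, hNUL. -/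
def StBCC : Prop := ∀ (k : ℝ) (κ n a : ℂ → ℂ) (t : ℂ) (U : Set ℂ) (q : ℂ → ℂ), Dis k κ n → ‖t‖ < 1 →
  DNq (muD κ n t) a → IsOpen U → DifferentiableOn ℂ q U →
  (∀ z ∈ U, deriv q z ≠ 0 ∧ κ z = 0 ∧ n z = conj (deriv q z) / deriv q z) →
  DifferentiableOn ℂ (fun ζ => q ((nq (muD κ n t)).symm ζ) + t * conj (q ((nq (muD κ n t)).symm ζ)))
    (nq (muD κ n t) '' U) ∧
  ∀ᵐ ζ ∂(volume.restrict (nq (muD κ n t) '' U)),
    mD κ n a t ζ * deriv (fun ζ => q ((nq (muD κ n t)).symm ζ) +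
      t * conj (q ((nq (muD κ n t)).symm ζ))) ζ =
    conj (deriv (fun ζ => q ((nq (muD κ n t)).symm ζ) +
      t * conj (q ((nq (muD κ n t)).symm ζ))) ζ)

end Pool.Agent.Helper68.QS
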