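import Pool.Agent.Helper61.QE.St2
import Pool.Agent.Helper68.QC.St7

/-!
# Project QD: straightening and transfer.  Module statements with proofs in the docstrings.

Conventions: `D`, `Dx`, `rf`, `SU`, `Fu`, `FD`, `Ab`, `nuT`, `muT`, `syX`, `syY`, `Kap`, `En` are those of
`Pool/Agent/Helper61/QE/Defs.lean`; `mob`, `den`, `nq`, `Intw`, `Sol`, `WD` those of
`Pool/Agent/Helper68/QC/Defs.lean` (calculus in `QC/Cal.lean`).  The interface statements `StEX`,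
`StFAC`, ... of part M are proved (`Pool/Agent/Helper68/QCA/Main.lean`); in the modules they are
hypotheses.
-/

open MeasureTheory Set Filter Topology Complex
open scoped ContDiff ComplexConjugate ENNReal

namespace Pool.Agent.Helper68.QS

open Pool.Agent.Helper68.QC
open Pool.Agent.Helper61.QE (D Dx rf SU Fu FD Ab sy nuT muT syX syY Kap En Et)

/-- `w₂ ∘ A = B ∘ w₁` on the Riemann sphere (`w₁`, `w₂` fix `∞`). -/
def Intw2 (A B : SL) (w₁ w₂ : ℂ → ℂ) : Prop :=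
  (∀ z, den A z = 0 ↔ den B (w₁ z) = 0) ∧
  (∀ z, den A z ≠ 0 → w₂ (mob A z) = mob B (w₁ z)) ∧
  (A 1 0 = 0 ↔ B 1 0 = 0) ∧ (A 1 0 ≠ 0 → w₂ (A 0 0 / A 1 0) = B 0 0 / B 1 0)

/-- Moebius map of the unit disc with `mb p 0 = p` (the same as `mb` of part C). -/
noncomputable def mbp (p ζ : ℂ) : ℂ := (ζ + p) / (1 + conj p * ζ)

/-- `H` is a homeomorphism of the disc (inverse `H'`) and `h ∘ H = a h + b conj h + v`. -/
structure AffH (h H H' : ℂ → ℂ) (a b v : ℂ) : Prop where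
  m : MapsTo H D D
  m' : MapsTo H' D D
  cont : ContinuousOn H D
  cont' : ContinuousOn H' D
  l : ∀ z ∈ D, H' (H z) = z
  r : ∀ z ∈ D, H (H' z) = z
  eq : ∀ z ∈ D, h (H z) = a * h z + b * conj (h z) + v
  lt : ‖b‖ < ‖a‖

/-- `h ∘ M⁻¹` -/
noncomputable def hM (M : SL) (h : ℂ → ℂ) (z : ℂ) : ℂ := h (mob M⁻¹ z)

/-- GEV (about 150 lines).  Equivariance for two coefficients related by a Möbius transformation.  Proof: copy `pEQX` (Pool/Agent/Helper68/QCM/M_EQX.lean), which is the case `μ₁ = μ₂`: `w₂ ∘ mob A` is `Sol μ₁` on `{den A ≠ 0}` (hPRE and the hypothesis), so by hFAC for `μ₁` the function `w₂ ∘ mob A ∘ w₁⁻¹` is holomorphic and injective on `w₁ '' {den A ≠ 0}`, and the rest of that proof does not change.  Hypotheses: hEX, hFAC, hPRE, hAFF. -/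
def StGEV : Prop := ∀ k < 1, ∀ μ₁ μ₂, Bel k μ₁ → Bel k μ₂ → ∀ A : SL,
  (∀ᵐ z : ℂ, μ₂ (mob A z) * den A z ^ 2 = μ₁ z * conj (den A z) ^ 2) →
  ∃ B : SL, Intw2 A B (nq μ₁) (nq μ₂)

/-- CGR (about 30 lines).  `nq μ` depends only on the class of `μ` modulo null sets.  Proof: `nq μ'` is a homeomorphism fixing `0, 1`, and `Sol μ univ (nq μ')` since `b = μ' a = μ a` almost everywhere; hUNI with `S = ∅`.  Also `nq 0 = id` (the identity is `Sol 0`, `WD univ id 1 0`).  Hypotheses: hEX, hUNI. -/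
def StCGR : Prop := (∀ k < 1, ∀ μ μ', Bel k μ → Bel k μ' → (∀ᵐ z : ℂ, μ z = μ' z) → nq μ = nq μ') ∧
  ∀ μ, Bel 0 μ → ∀ z, nq μ z = z

/-- EQI (about 150 lines).  If `nq μ` intertwines `A` and `B` then `μ` is invariant under `A`.  Proof: `w = nq μ`, `a, b` from hCVM (`b = μ a`, `a ≠ 0`).  On `V = {den A ≠ 0}` (open, complement null) `f = w ∘ mob A = mob B ∘ w`.  hPRW (`φ = mob A`, derivative `(den A z)⁻²`, see QE.hSUB, injective): `WD V f (a(Az) A'(z)) (b(Az) conj (A'(z)))`.  hCHR with `F = mob B` on `W = {den B ≠ 0}` (`w` maps `V` into `W`): `WD V f (B'(w z) a z) (B'(w z) b z)` (`dz F = F'`, `dzb F = 0`).  hUNW: equal a.e. on `V`.  So a.e. `μ(Az) a(Az) conj A' = B'(w z) μ z a z = μ z a(Az) A'`; divide by `a(Az) ≠ 0`.  Hypotheses: hCVM, hPRW, hCHR, hUNW, QE.hSUB. -/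
def StEQI : Prop := ∀ k < 1, ∀ μ, Bel k μ → ∀ A B : SL, Intw A B (nq μ) → InvB A μ

/-- LFH (about 150 lines).  Lifting of holomorphy.  Proof.  `Z = {x ∈ V | deriv h x = 0}` has no accumulation point in `V` (identity theorem, `V` connected).  At `z ∈ U` with `Q z ∉ Z`: `h` has a holomorphic local inverse `g` at `Q z` (`HasStrictDerivAt.localInverse`, `HasStrictDerivAt.toOpenPartialHomeomorph` or similar) and near `z` (continuity of `Q`) `Q = g ∘ (h ∘ Q)`.  At `z₀ ∈ U` with `Q z₀ ∈ Z`: for `z ≠ z₀` near `z₀`, `Q z` is near `Q z₀` and different from it (injective), so `Q z ∉ Z`: `Q` is differentiable on a punctured neighbourhood and continuous at `z₀`, so it is differentiable at `z₀` (`Complex.differentiableOn_compl_singleton_and_continuousAt_iff`).  Hypotheses: none. -/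
def StLFH : Prop := ∀ (U V : Set ℂ) (Q h : ℂ → ℂ), IsOpen U → IsOpen V → IsPreconnected V →
  ContinuousOn Q U → InjOn Q U → MapsTo Q U V → DifferentiableOn ℂ h V → (∃ x ∈ V, deriv h x ≠ 0) →
  DifferentiableOn ℂ (fun z => h (Q z)) U → DifferentiableOn ℂ Q U

/-- AUD (about 150 lines).  Automorphisms of the disc.  Proof: `p = Q 0`, `B z = (z - p)/(1 - conj p z)`, `R = B ∘ Q` is a holomorphic bijection of `D` fixing `0`; its inverse is holomorphic (LFH style, or `Pool.Agent.Helper80.Bieb` results; or apply the Schwarz lemma to the inverse after proving it differentiable with the inverse function theorem, `deriv R ≠ 0` for injective holomorphic `R`), so `‖R z‖ = ‖z‖` (Schwarz, `Complex.norm_le_norm_of_mapsTo_ball` twice) and `R z = c z`, `‖c‖ = 1` (equality in the Schwarz lemma: `R z/z` has constant modulus one, maximum principle).  With `e ^ 2 = c`: `Q = mob A`, `A` = normalised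 product.  (Compare `StRAU` in Pool/Agent/Helper20/QD/St2.lean and its proof, a variant.)  Hypotheses: none. -/
def StAUD : Prop := ∀ Q : ℂ → ℂ, DifferentiableOn ℂ Q D → InjOn Q D → Q '' D = D →
  ∃ A : SL, SU A ∧ ∀ z ∈ D, mob A z = Q z

/-- HVM (about 200 lines).  The affine homeomorphism is a Möbius transformation composed with the normalised symmetric solution.  Proof: `t = conj (b/a)`, `‖t‖ < 1`, `V = nq (syX h t)`.  QE.hCOE (with the trivial group `Unit` and the trivial homomorphism, `κ = 0`): `Bel ‖t‖`, symmetric, `syX h t z = (b/a) conj (h' z)/h' z` for `z ∈ D`, `z ≠ 0`; QE.hEDD: `V '' D = D`.  `f = a h + b conj h + v` is smooth on `D` with `dz f = a h'`, `dzb f = b conj (h')` (QC/Cal.lean; smooth functions are WD with their classical derivatives: search `WD.of_contDiffOn` or similar in QC/Cal.lean, else integrate by parts with a cutoff), so `Sol (syX h t) D f` (both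 sides vanish where `h' = 0`).  hFAC: `G = f ∘ V.symm` is holomorphic on `V '' D = D`.  `Q = H ∘ V.symm` on `D`: continuous, injective, onto, `h ∘ Q = G`, so holomorphic by hLFH; hAUD gives `A` with `mob A = Q` on `D`; `M = A⁻¹`: `mob M (H z) = mob A⁻¹ (Q (V z)) = V z` (QE.hSUB).  Hypotheses: hEX, hFAC, QE.hSUB, QE.hEDD, QE.hCOE, hLFH, hAUD. -/
def StHVM : Prop := ∀ (h H H' : ℂ → ℂ) (a b v : ℂ), DifferentiableOn ℂ h D → (∃ x ∈ D, deriv h x ≠ 0) →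
  AffH h H H' a b v → ∃ M : SL, SU M ∧ ∀ z ∈ D, nq (syX h (conj (b / a))) z = mob M (H z)

/-- RFI (about 150 lines).  Intertwining on the disc implies intertwining on the sphere for symmetric homeomorphisms.  Proof: `A, B ∈ SU(1,1)`; QE.hSUB gives all rules (`mob A (rf z) = rf (mob A z)` for `z ≠ 0` with the conventions `1/0 = 0`; `den A ≠ 0` on the closed disc).  `mob B 0 = mob B (V 0) = V (mob A 0)`, so `mob A 0 = 0` iff `mob B 0 = 0`; as `mob A 0 = A 0 1/A 1 1` and `A 1 0 = conj (A 0 1)`, third clause.  `A 0 0/A 1 0 = rf (mob A 0)` if `A 1 0 ≠ 0`: fourth clause.  Pole: `den A z = 0` iff `A 1 0 ≠ 0` and `z = -A 1 1/A 1 0 = rf (mob A⁻¹ 0)` and `V (mob A⁻¹ 0) = mob B⁻¹ 0` (apply the hypothesis to `z = mob A⁻¹ 0`: `mob B (V z) = V 0 = 0`): first clause.  Second clause: `z ∈ D`: hypothesis.  `‖z‖ = 1`: by continuity (limit of `r z`, `r → 1`; `mob A`, `mob B` are continuous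 at `z`, `V z`, `‖V z‖ = 1`).  `‖z‖ > 1`, `den A z ≠ 0`: `z = rf z'`, `z' ∈ D`, `z' ≠ 0`, `mob A z' ≠ 0`; `V (mob A z) = V (rf (mob A z')) = rf (V (mob A z')) = rf (mob B (V z')) = mob B (rf (V z')) = mob B (V z)`.  Hypotheses: QE.hSUB. -/
def StRFI : Prop := ∀ (V : ℂ ≃ₜ ℂ) (A B : SL), V 0 = 0 → V '' D = D → (∀ z, V (rf z) = rf (V z)) →
  SU A → SU B → (∀ z ∈ D, V (mob A z) = mob B (V z)) → Intw A B V

/-- CPA (about 220 lines).  Composition with the symmetric solution: the outer coefficient.  Notation: `t = conj (b/a)`, `V = nq (syX h t)`, `w = mbp t ζ`, `μ = muT κ h w`, `u = conj a/a`, `hm = hM M h`.  Proof.  `k' = max k (max ‖t‖ ‖w‖) < 1` bounds `μ` and `syX h t`; `δ = 2k'/(1+k'²) < 1`: `‖x - y‖ ≤ δ ‖1 - conj y x‖` for `‖x‖, ‖y‖ ≤ k'` (`1 - ‖(x-y)/(1 - conj y x)‖² = (1-‖x‖²)(1-‖y‖²)/‖1 - conj y x‖² ≥ (1-k'²)²/(1+k'²)²`).  hCMP: `ν`, `nq μ = nq ν ∘ V`.  Outer coefficient: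 on `Dx` let `q z = conj (h (rf z))` (holomorphic, `q' z = -(z ^ 2)⁻¹ conj (h' (rf z))`) and `q₁ z = conj (hm (rf z))`; `nuT h = conj q'/q'` there.  `q₁ (V z) = conj (h (mob M⁻¹ (rf (V z)))) = conj (h (mob M⁻¹ (V (rf z)))) = conj (h (H (rf z))) = conj a q z + conj b conj (q z) + conj v` (`V ∘ rf = rf ∘ V`: QE.hEDD).  `L = q₁ + ζ u conj q₁`; `L (V z) = (conj a + ζ u b)(q z + w conj (q z)) + const` (since `(conj b + ζ u a)/(conj a + ζ u b) = (t + ζ)/(1 + conj t ζ) = w`).  `q + w conj q` is `Sol μ` on `Dx` (smooth, derivatives `q'`, `w conj q'`), so by hFAC `(q + w conj q) ∘ (nq μ)⁻¹` is holomorphic on `nq μ '' Dx = nq ν '' Dx` (`V '' Dx = Dx`), hence `G = L ∘ (nq ν)⁻¹` is holomorphic there: `L = G ∘ nq ν` on `Dx`.  With `a', b'` for `ν` (hCVM; `b' = ν a'`): hCHR: `WD Dx L (G'(nq ν) a') (G'(nq ν) b')`, and classically `WD Dx L (q₁') (ζ u conj q₁')`; hUNW: a.e. on `Dx` `ζ u conj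 q₁' = ν q₁'`; the zeros of `q₁'` are countable (isolated; `h` is not constant, so `hm`, `q₁` are not), so `ν = ζ u nuT hm` a.e. on `Dx`.  Hypotheses: hEX, hFAC, hCMP, hCVM, hCHR, hUNW, QE.hSUB, QE.hEDD, QE.hCOE. -/
def StCPA : Prop := ∀ (h H H' κ : ℂ → ℂ) (a b v : ℂ) (M : SL) (k : ℝ), DifferentiableOn ℂ h D →
  (∃ x ∈ D, deriv h x ≠ 0) → AffH h H H' a b v → SU M →
  (∀ z ∈ D, nq (syX h (conj (b / a))) z = mob M (H z)) →
  k < 1 → Bel k κ → (∀ z, 1 ≤ ‖z‖ → κ z = 0) → ∀ ζ ∈ D,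
  ∃ δ < 1, ∃ ν, Bel δ ν ∧
    (∀ z, nq (muT κ h (mbp (conj (b / a)) ζ)) z = nq ν (nq (syX h (conj (b / a))) z)) ∧
    ∀ᵐ z ∂(volume.restrict Dx), ν z = ζ * (conj a / a) * nuT (hM M h) z

/-- CPB (about 100 lines).  The inner coefficient does not depend on `ζ`.  Let `μ₁, μ₂` agree on `D`, `nq μ₁ = nq ν₁ ∘ V`, `nq μ₂ = nq ν₂ ∘ V`, `V '' D = D`.  Proof: `nq μ₂` is `Sol μ₁` on `D` (restrict `Sol μ₂ univ` to `D`; the coefficients agree there), so hFAC: `nq μ₂ ∘ (nq μ₁)⁻¹` is holomorphic on `nq μ₁ '' D`, and it is `G = nq ν₂ ∘ (nq ν₁)⁻¹` on `nq ν₁ '' D`.  So `nq ν₂ = G ∘ nq ν₁` is `Sol ν₁` on `D` (hPOS) with derivatives `a, b`, `b = ν₁ a`; by hUNW they agree a.e. on `D` with those of hCVM for `ν₂` (`b₂ = ν₂ a₂`, `a₂ ≠ 0`): `ν₁ = ν₂` a.e. on `D`.  Hypotheses: hEX, hFAC, hPOS, hCVM, hUNW. -/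
def StCPB : Prop := ∀ (k : ℝ) (V : ℂ ≃ₜ ℂ) (μ₁ μ₂ ν₁ ν₂ : ℂ → ℂ), k < 1 → V '' D = D →
  Bel k μ₁ → Bel k μ₂ → Bel k ν₁ → Bel k ν₂ → (∀ z ∈ D, μ₁ z = μ₂ z) →
  (∀ z, nq μ₁ z = nq ν₁ (V z)) → (∀ z, nq μ₂ z = nq ν₂ (V z)) →
  ∀ᵐ z ∂(volume.restrict D), ν₁ z = ν₂ z

/-- CPO (about 120 lines).  Composition with the symmetric solution, all parameters.  Proof: `κ'` = the `ν` of hCPA for `ζ = 0` on `D`, `0` outside.  For general `ζ`: `ν` from hCPA; on `D` it equals `κ'` a.e. (hCPB; all coefficients are bounded by a common `k'' < 1`), on `Dx` it equals `ζ u nuT (hM M h)` a.e., the circle is a null set: `ν = muT κ' (hM M h) (ζ u)` a.e., so the normalised solutions agree (hCGR; `muT ..` is bounded by `max δ ‖ζ‖`, `‖nuT‖ ≤ 1`).  Hypotheses: QE.hEDD, QE.hCOE, hCGR, hCPA, hCPB. -/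
def StCPO : Prop := ∀ (h H H' κ : ℂ → ℂ) (a b v : ℂ) (M : SL) (k : ℝ), DifferentiableOn ℂ h D →
  (∃ x ∈ D, deriv h x ≠ 0) → AffH h H H' a b v → SU M →
  (∀ z ∈ D, nq (syX h (conj (b / a))) z = mob M (H z)) →
  k < 1 → Bel k κ → (∀ z, 1 ≤ ‖z‖ → κ z = 0) →
  ∃ δ < 1, ∃ κ', Bel δ κ' ∧ (∀ z, 1 ≤ ‖z‖ → κ' z = 0) ∧ ∀ ζ ∈ D, ∀ z,
    nq (muT κ h (mbp (conj (b / a)) ζ)) z =
      nq (muT κ' (hM M h) (ζ * (conj a / a))) (nq (syX h (conj (b / a))) z)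

/-- INK (about 120 lines).  Invariance of the inner coefficient.  Notation as in CPO; `A = s γ`, `A' ∈ SU(1,1)` with `H (mob A z) = mob A' (H z)` on `D`, `B = M A' M⁻¹`.  Proof: on `D` `V (mob A z) = mob M (mob A' (H z)) = mob B (V z)` (QE.hSUB), so `Intw A B V` (hRFI, QE.hEDD).  `μ = muT κ h (mbp t 0)` is invariant under `A` (hypothesis), so `Intw A R (nq μ)` for some `R` (hEQV), and `nq μ = nq ν ∘ V` with `ν = muT κ' (hM M h) 0 = κ'` (ζ = 0); QE.hINT (third item): `Intw B R (nq κ')`; hEQI: `InvB B κ'`.  Hypotheses: hEQV, QE.hSUB, QE.hINT, QE.hEDD, QE.hCOE, hRFI, hEQI. -/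
def StINK : Prop := ∀ (h H H' κ κ' : ℂ → ℂ) (a b v : ℂ) (M A A' : SL) (k δ : ℝ),
  DifferentiableOn ℂ h D → AffH h H H' a b v → SU M → SU A → SU A' →
  (∀ z ∈ D, nq (syX h (conj (b / a))) z = mob M (H z)) →
  (∀ z ∈ D, H (mob A z) = mob A' (H z)) → k < 1 → δ < 1 →
  Bel k κ → (∀ z, 1 ≤ ‖z‖ → κ z = 0) → InvB A (muT κ h (conj (b / a))) →
  Bel δ κ' → (∀ z, 1 ≤ ‖z‖ → κ' z = 0) →
  (∀ z, nq (muT κ h (mbp (conj (b / a)) 0)) z =
    nq (muT κ' (hM M h) 0) (nq (syX h (conj (b / a))) z)) →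
  InvB (M * A' * M⁻¹) κ'

/-- MPB (about 200 lines).  Pull back by `M ∈ SU(1,1)`.  Proof: `κ'' z = κ' (mob M z) * den M z ^ 2 / conj (den M z) ^ 2` for `‖z‖ < 1`, `0` otherwise; measurable, `‖κ''‖ ≤ δ`.  (i) For a.e. `z`: `muT κ' (hM M h) ζ (mob M z) * den M z ^ 2 = muT κ'' h ζ z * conj (den M z) ^ 2`: for `z ∈ D` by definition (`mob M z ∈ D`, `nuT = 0` there); for `‖z‖ > 1`, `den M z ≠ 0`: `κ` parts vanish (`‖mob M z‖ > 1`), and with `x = rf z`, `rf (mob M z) = mob M x` (QE.hSUB), `hM M h = h ∘ mob M⁻¹` near `mob M x`, `deriv (hM M h) (mob M x) = h' x * (den M x) ^ 2`, `den M x = conj (mob M z * den M z)/conj z`; put in.  hGEV (with `k = max δ ‖ζ‖`).  (ii) Invariance: `B = M A M⁻¹`, cocycle `den M (Az) den A z = den B (Mz) den M z` (QE.hSUB), for a.e. `z ∈ D` (the preimage of a null set under `mob M` is a null set: `mob M⁻¹` is locally Lipschitz/differentiable off the pole);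 for `‖z‖ > 1` both sides vanish.  Hypotheses: QE.hSUB, hGEV. -/
def StMPB : Prop := ∀ (h κ' : ℂ → ℂ) (M : SL) (δ : ℝ), DifferentiableOn ℂ h D → SU M → δ < 1 →
  Bel δ κ' → (∀ z, 1 ≤ ‖z‖ → κ' z = 0) → ∃ κ'', Bel δ κ'' ∧ (∀ z, 1 ≤ ‖z‖ → κ'' z = 0) ∧
    (∀ ζ ∈ D, ∃ B : SL, Intw2 M B (nq (muT κ'' h ζ)) (nq (muT κ' (hM M h) ζ))) ∧
    ∀ A : SL, SU A → InvB (M * A * M⁻¹) κ' → InvB A κ''

/-- ENM (about 200 lines).  Möbius invariance of the energy integral.  Proof.  `w₂ '' (mob M '' F) = mob B '' (w₁ '' F)`; `w₂ '' Dx` and `mob B '' (w₁ '' (Dx \ {pole of M}))` differ by at most one point (`mob M` maps `Dx` minus its pole onto `Dx` minus `M 0 0/M 1 0`; QE.hSUB).  `mob B` is injective on `{den B ≠ 0}`, with complex derivative `(den B x)⁻²`, so real Jacobian `‖den B x‖⁻⁴`: change of variables in both integrals (`MeasureTheory.lintegral_image_eq_lintegral_abs_det_fderiv_mul`, determinant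 of a complex multiplication: `Pool.Agent.Helper80.Bieb.det_mul`), and `‖mob B ξ - mob B a‖ = ‖ξ - a‖/(‖den B ξ‖ ‖den B a‖)`.  Hypotheses: QE.hSUB. -/
def StENM : Prop := ∀ (M B : SL) (w₁ w₂ : ℂ ≃ₜ ℂ) (F : Set ℂ), SU M → Intw2 M B w₁ w₂ →
  MeasurableSet F → F ⊆ D →
  ∫⁻ x in w₂ '' (mob M '' F), ∫⁻ ξ in w₂ '' Dx, ENNReal.ofReal (‖ξ - x‖⁻¹ ^ 4) =
    ∫⁻ x in w₁ '' F, ∫⁻ ξ in w₁ '' Dx, ENNReal.ofReal (‖ξ - x‖⁻¹ ^ 4)

/-- FDH (about 100 lines).  Image of a fundamental domain.  Proof: `H '' F = {z ∈ D | H' z ∈ F}` is measurable; `F ⊆ closedBall 0 r`, `H '' (closedBall 0 r)` is compact in `D`, so contained in a smaller closed ball; `cov`: for `z ∈ D` take `γ` with `mob (s γ) (H' z) ∈ F`, its image under `H` is `mob (s (φ γ)) z`; `uni` similarly (`mob (s γ)` maps `D` to `D`, QE.hSUB).  Hypotheses: QE.hSUB. -/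
def StFDH : Prop := ∀ (Γ : Type) [Group Γ] (s : Γ →* SL) (φ : Γ ≃* Γ) (H H' : ℂ → ℂ) (F : Set ℂ),
  (∀ γ, SU (s γ)) → MapsTo H D D → MapsTo H' D D → ContinuousOn H D → ContinuousOn H' D →
  (∀ z ∈ D, H' (H z) = z) → (∀ z ∈ D, H (H' z) = z) →
  (∀ γ, ∀ z ∈ D, H (mob (s γ) z) = mob (s (φ γ)) (H z)) → FD s F → FD s (H '' F)

/-- Independence of the fundamental domain (proved in part E). -/
def EFD : Prop := ∀ (Γ : Type) [Group Γ] (s : Γ →* SL) (F F' : Set ℂ) (k : ℝ) (μ : ℂ → ℂ),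
  Fu s → FD s F → FD s F' → k < 1 → Bel k μ → (∀ γ, InvB (s γ) μ) → En F μ = En F' μ

/-- TRF (about 150 lines).  Transfer.  Proof: hHVM: `M`; `t = conj (b/a)`, `V = nq (syX h t)`.  hCPO: `δ, κ'`; hINK for every `γ` (`A = s γ`, `A' = s (φ γ)`; invariance of `muT κ h t` from QE.hCOE, `mbp t 0 = t`): `InvB (M s(φ γ) M⁻¹) κ'`; hMPB: `κ''`, invariant under all `s (φ γ)`, so under all `s γ`.  For `ζ ∈ D`: `nq μ '' F = nq μ' '' (V '' F)` and `V '' F = mob M '' (H '' F)`, `nq μ '' Dx = nq μ' '' Dx` (`V '' Dx = Dx`, QE.hEDD), so `En F μ = En (mob M '' (H '' F)) μ' = En (H '' F) (muT κ'' h (ζ u))` (hENM) `= En F (muT κ'' h (ζ u))` (hFDH and EFD).  Hypotheses: QE.hSUB, QE.hEDD, QE.hCOE, hHVM, hCPO, hINK, hMPB, hENM, hFDH. -/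
def StTRF : Prop := EFD → ∀ (Γ : Type) [Group Γ] (s : Γ →* SL) (φ : Γ ≃* Γ) (h H H' κ : ℂ → ℂ)
  (a b v : ℂ) (F : Set ℂ) (k : ℝ), Fu s → FD s F → Ab s h → AffH h H H' a b v →
  (∀ γ, ∀ z ∈ D, H (mob (s γ) z) = mob (s (φ γ)) (H z)) → 0 ≤ k → k < 1 → Kap s k κ →
  ∃ δ < 1, ∃ κ'', 0 ≤ δ ∧ Kap s δ κ'' ∧ ∀ ζ ∈ D,
    En F (muT κ h (mbp (conj (b / a)) ζ)) = En F (muT κ'' h (ζ * (conj a / a)))

/-- EIX (about 200 lines).  Subgroups of finite index.  Proof.  `Γ` is the disjoint union of `N c_i` over a finite set of representatives `c_i` (`N.index` many).  `Fu` for the restriction: `su`, `disc`, `free` clear; `coc`: if `‖mob (s γ) z‖ ≤ r`, `γ = c_i⁻¹ n`, then `mob (s n) z = mob (s c_i) (mob (s γ) z)` lies in the compact set `⋃ mob (s c_i) '' closedBall 0 r ⊆ D`.  `FN = ⋃ mob (s c_i) '' F`, one of the `c_i` is `1`, so `F ⊆ FN` (`mob 1 z = z`; disjoint union since `mob (s c_i) y = mob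 (s c_j) y'` gives `c_j⁻¹ c_i = 1`).  `FD`: measurable (`mob (s c_i) '' F` is the preimage under `mob (s c_i⁻¹)` in `D`), `cov`: `z = mob (s γ⁻¹) y`, `y ∈ F`, `γ⁻¹ = n c_i`: `mob (s n⁻¹) z = mob (s c_i) y`; `uni`: `mob (s (n c_i)) y = mob (s c_j) y'` gives `c_j⁻¹ n c_i = 1`, so `i = j`, `n = 1`.  Energy: `nq μ '' FN` is the disjoint union of the `nq μ '' (mob (s c_i) '' F)` and each has the energy of `F` (hEQV gives `Intw (s c_i) B (nq μ)` = `Intw2 (s c_i) B (nq μ) (nq μ)`, hENM).  Hypotheses: hEQV, QE.hSUB, hENM. -/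
def StEIX : Prop := ∀ (Γ : Type) [Group Γ] (s : Γ →* SL) (N : Subgroup Γ) (F : Set ℂ),
  Fu s → N.FiniteIndex → FD s F → Fu (s.comp N.subtype) ∧ ∃ FN, F ⊆ FN ∧ FD (s.comp N.subtype) FN ∧
    ∀ (k : ℝ) (μ : ℂ → ℂ), k < 1 → Bel k μ → (∀ γ, InvB (s γ) μ) →
      En FN μ = (N.index : ℝ≥0∞) * En F μ

/-- INP (about 220 lines).  The coefficient of an equivariant map is invariant.  Proof.  `κ₀ = μ₀` on `D`, `0` outside.  QE.hCOE (trivial group, `h = 0`): `m = syY κ₀` is `Bel k`, symmetric, `= μ₀` on `D`; `f = nq m`, `f '' D = D` (QE.hEDD).  `Sol m D Ψ`, so `g = Ψ ∘ f.symm` is holomorphic on `D` (hFAC), not constant; its critical points are countable.  `Ψ = g ∘ f` has weak derivatives `g'(f) a, g'(f) b` on `D` (hCHR with hCVM for `m`: `b = m a`, `a ≠ 0` everywhere), so `Ψ_z = g'(f) a ≠ 0` a.e. on `D` (countable sets are null; `f` is injective).  Now `Ψ ∘ mob A = Ψ + c` on `D` (`A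 ∈ SU(1,1)` maps `D` onto `D` conformally, QE.hSUB): hPRW for the left side, hUNW: a.e. on `D` `Ψ_z(Az) A' = Ψ_z(z)`, `Ψ_z̄(Az) conj A' = Ψ_z̄(z)` with `Ψ_z̄ = μ₀ Ψ_z`, `A' = (den A)⁻²`: so `μ₀(Az) conj A' = μ₀(z) A'` a.e. on `D`.  For `κ₀` on the whole plane: outside `D` both sides vanish (`mob A` preserves `Dx` off the pole).  Hypotheses: hEX, hFAC, hCVM, hCHR, hUNW, hPRW, QE.hSUB, QE.hEDD, QE.hCOE. -/
def StINP : Prop := ∀ (k : ℝ) (μ₀ Ψ : ℂ → ℂ) (A : SL) (c : ℂ), 0 ≤ k → k < 1 → Bel k μ₀ →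
  Sol μ₀ D Ψ → (∃ z ∈ D, ∃ w ∈ D, Ψ z ≠ Ψ w) → SU A → (∀ z ∈ D, Ψ (mob A z) = Ψ z + c) →
  InvB A (D.indicator μ₀)

/-- SGH (about 200 lines).  Straightening.  Proof.  `κ₀ = D.indicator μ₀`, `Kap s₀ k κ₀` by hINP; QE.hCOE (`h = 0`): `m = syY κ₀` is `Bel k`, invariant, symmetric, `= μ₀` on `D`.  `f = nq m`; QE.hEDD: `f '' D = D`, `f '' Dx = Dx`, `f 0 = 0`, `f ∘ rf = rf ∘ f`.  `g = Ψ ∘ f.symm` is holomorphic on `D` (hFAC), not constant.  Representation: `k₁ = max k (1/2)`, `r = (1 + 1/k₁)/2 > 1`; hREP with centre `0`, radius `r`, bound `r k₁ = (1 + k₁)/2 < 1`, `μ_t = t m`, `ρ₀ = σ = s₀` (`nq (0 m) = id`: hCGR; `Intw (s₀ γ) (s₀ γ) id` trivial): `s = ρ 1`, `Intw (s₀ γ) (s γ) (nq m)` (`1 * m = m`); `SU (s γ)` by QE.hEDD.  Equivariance of `g`: for `z ∈ D`, `x = f.symm z`: `f (mob (s₀ γ) x) = mob (s γ) z`, so `g (mob (s γ) z) = Ψ (mob (s₀ γ) x) = g z + c`.  Hypotheses: hEX, hFAC,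 hREP, QE.hSUB, QE.hEDD, QE.hCOE, hCGR, hINP. -/
def StSGH : Prop := ∀ (Γ : Type) [Group Γ] (s₀ : Γ →* SL) (k : ℝ) (μ₀ Ψ : ℂ → ℂ), 0 ≤ k → k < 1 →
  (∀ γ, SU (s₀ γ)) → Bel k μ₀ → Sol μ₀ D Ψ → (∃ z ∈ D, ∃ w ∈ D, Ψ z ≠ Ψ w) →
  (∀ γ, ∃ c, ∀ z ∈ D, Ψ (mob (s₀ γ) z) = Ψ z + c) →
  ∃ (f : ℂ ≃ₜ ℂ) (s : Γ →* SL), f '' D = D ∧ f '' Dx = Dx ∧ f 0 = 0 ∧ (∀ z, f (rf z) = rf (f z)) ∧
    (∀ γ, SU (s γ)) ∧ (∀ γ, Intw (s₀ γ) (s γ) f) ∧ Ab s (fun z => Ψ (f.symm z))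

/-- SFU (about 80 lines).  Topological conjugacy preserves `Fu`.  Proof: `mob (s γ) (f z) = f (mob (s₀ γ) z)` on `D`.  `disc`: `‖mob (s γ) 0‖ ≤ r` means `mob (s₀ γ) 0 ∈ f⁻¹ (closedBall 0 r)`, compact in `D`, contained in `closedBall 0 r'`, `r' < 1`.  `free`: a fixed point of `mob (s γ)` in `D` gives one of `mob (s₀ γ)`.  `coc`: `f '' closedBall 0 r` is compact in `D`.  Hypotheses: QE.hSUB. -/
def StSFU : Prop := ∀ (Γ : Type) [Group Γ] (s₀ s : Γ →* SL) (f : ℂ ≃ₜ ℂ), f '' D = D → f 0 = 0 →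
  Fu s₀ → (∀ γ, SU (s γ)) → (∀ γ, Intw (s₀ γ) (s γ) f) → Fu s

end Pool.Agent.Helper68.QS
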