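import Pool.Agent.Helper68.QS.St1
import Pool.Agent.Helper61.QE.St3
import Pool.Agent.Helper69.QG.St4

/-!
# Project QD: straightening and transfer, final statement (strictness on the orbit of `SL(2,ℤ)`)
-/

open MeasureTheory Set Filter Topology Complex
open scoped ContDiff ComplexConjugate ENNReal

namespace Pool.Agent.Helper68.QS

open Pool.Agent.Helper68.QC
open Pool.Agent.Helper61.QE (D Dx rf SU Fu FD Ab sy nuT muT syX syY Kap En Et)
open Pool.Agent.Helper35.PM (SurfaceGroup)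
open Pool.Agent.Helper69.QC (Orb mb)

/-- FUF (about 80 lines).  Comparison of the two notions of Fuchsian groups.  Proof: `IsSU` and `SU` are the same equations, `mob` the same function.  `disc`: for `A = [[a,b],[conj b, conj a]]`, `‖a‖² - ‖b‖² = 1`, `mob A 0 = b/conj a`; `‖mob A 0‖ ≤ r < 1` gives `1 = ‖a‖² - ‖b‖² ≥ ‖a‖² (1 - r²)` (`r ≥ 0`), so `hs A = 2(‖a‖² + ‖b‖²) ≤ 4/(1 - r²)`: finite by `IsDiscrete`.  Hypotheses: none. -/
def StFUF : Prop := ∀ (Γ : Type) [Group Γ] (s : Γ →* SL), Pool.Agent.Helper20.QD.Fuch s →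
  (∀ γ, γ ≠ 1 → ∀ z ∈ D, mob (s γ) z ≠ z) → Fu s

/-- Strictness at the centre (final statement of part E). -/
def STR : Prop := ∀ (Γ : Type) [Group Γ] (s : Γ →* SL) (F : Set ℂ) (h : ℂ → ℂ), Fu s → FD s F →
  Ab s h → ∀ r : ℝ, 0 < r → r < 1 → ∃ c : ℝ, 0 < c ∧ ∀ k < 1, ∀ κ, Kap s k κ →
    c * Et F κ h 0 ^ 2 ≤ Et F κ h 0 - Real.circleAverage (Et F κ h) 0 r

/-- GPT: the base surface with a subgroup `N` of finite index and strictness on the whole orbit of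
`SL(2,ℤ)` for all `N`-invariant coefficients (input of Theorem C). -/
def StGPT : Prop := ∀ g : ℕ, 2 ≤ g → ∃ (s : SurfaceGroup g →* SL) (N : Subgroup (SurfaceGroup g))
  (F0 F1 : Set ℂ) (h : ℂ → ℂ), Fu s ∧ FD s F0 ∧ F0 ⊆ F1 ∧ N.FiniteIndex ∧ Fu (s.comp N.subtype) ∧
    FD (s.comp N.subtype) F1 ∧ Ab s h ∧
    ∀ r : ℝ, 0 < r → r < 1 → ∃ c : ℝ, 0 < c ∧ ∀ k < 1, ∀ κ, Kap (s.comp N.subtype) k κ →
      ∀ p ∈ Orb, p ∈ D →
        c * Et F1 κ h p ^ 2 ≤
          Et F1 κ h p - Real.circleAverage (fun ζ => Et F1 κ h (mb p ζ)) 0 r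

end Pool.Agent.Helper68.QS
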